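import Mathlib

/-!
Fitting classes of finite soluble groups, radicals, and the Lockett star operations.
-/

namespace Pool.Agent.MP_060950_al

/-- A class of groups: a property of groups. -/
def GroupClass : Type 1 := ∀ (G : Type) [Group G], Prop

/-- The class of all finite soluble groups. -/
def solubleClass : GroupClass := fun G _ => Finite G ∧ Group.IsSolvable G

/-- The intersection of two classes. -/
def interClass (X Y : GroupClass) : GroupClass := fun G _ => X G ∧ Y G

/-- A Fitting class of finite soluble groups. -/
structure IsFitting (F : GroupClass) : Prop where
  /-- every member is a finite soluble group -/
  soluble : ∀ (G : Type) [Group G], F G → solubleClass G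
  /-- the trivial group is a member -/
  trivial : F PUnit
  /-- closure under isomorphism -/
  iso : ∀ (G H : Type) [Group G] [Group H], (G ≃* H) → F G → F H
  /-- closure under normal subgroups -/
  normal : ∀ (G : Type) [Group G] (N : Subgroup G), N.Normal → F G → F N
  /-- closure under products of normal subgroups -/
  prod : ∀ (G : Type) [Group G] [Finite G] (N₁ N₂ : Subgroup G), N₁.Normal → N₂.Normal →
    F N₁ → F N₂ → F ↥(N₁ ⊔ N₂)

/-- The F-radical of G: the join of all normal subgroups of G lying in F (for a Fitting class F
and finite G, the largest normal subgroup of G lying in F). -/
def radical (F : GroupClass) (G : Type) [Group G] : Subgroup G :=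
  sSup {N : Subgroup G | N.Normal ∧ F N}

/-- The radical of a direct product of finite soluble groups is the product of the radicals. -/
def RespectsProducts (F : GroupClass) : Prop :=
  ∀ (G H : Type) [Group G] [Group H], solubleClass G → solubleClass H →
    radical F (G × H) = (radical F G).prod (radical F H)

/-- Upper star: the smallest Fitting class containing X whose radicals respect direct products,
that is, the intersection of all such classes. -/
def upperStar (X : GroupClass) : GroupClass := fun G _ =>
  ∀ F : GroupClass, IsFitting F → (∀ (H : Type) [Group H], X H → F H) → RespectsProducts F → F G

/-- Lower star: the intersection of all Fitting classes with the same upper star as X. -/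
def lowerStar (X : GroupClass) : GroupClass := fun G _ =>
  ∀ Y : GroupClass, IsFitting Y → upperStar Y = upperStar X → Y G

/-- The Lockett condition. -/
def LockettCondition (X : GroupClass) : Prop :=
  interClass X (lowerStar solubleClass) = lowerStar X

end Pool.Agent.MP_060950_al
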